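import Pool.Agent.Helper98.EQ.Goals

/-!
# Packet EQ-FIN: the final inequality
-/

set_option autoImplicit false

namespace Pool.Agent.Helper23.EQ.FIN

open Polynomial

/-- The trace of a matrix with `M ^ (N + 1) = M`, `N ≥ 1`, is an algebraic integer. -/
theorem trace_integral {k X : Type} [Field k] [IsAlgClosed k] [Fintype X] [DecidableEq X]
    (M : Matrix X X k) {N : ℕ} (hN : 0 < N) (hM : M ^ (N + 1) = M) : IsIntegral ℤ M.trace := by
  rw [Matrix.trace_eq_sum_roots_charpoly]
  refine IsIntegral.multiset_sum fun μ hμ => ?_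
  have hroot : M.charpoly.IsRoot μ := isRoot_of_mem_roots hμ
  rw [IsRoot, Matrix.eval_charpoly] at hroot
  obtain ⟨v, hv0, hv⟩ := Matrix.exists_mulVec_eq_zero_iff.2 hroot
  have hev : M.mulVec v = μ • v := by
    rw [Matrix.sub_mulVec, sub_eq_zero] at hv
    rw [← hv]
    ext i
    simp [Matrix.scalar, Matrix.mulVec_diagonal]
  have hpow : ∀ n : ℕ, (M ^ n).mulVec v = μ ^ n • v := by
    intro n
    induction n with
    | zero => simp
    | succ n ih =>
      rw [pow_succ', ← Matrix.mulVec_mulVec, ih, Matrix.mulVec_smul, hev, smul_smul, pow_succ]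
  have h1 : μ ^ (N + 1) = μ := by
    have h2 := hpow (N + 1)
    rw [hM, hev] at h2
    have h3 : (μ ^ (N + 1) - μ) • v = 0 := by rw [sub_smul, ← h2, sub_self]
    exact sub_eq_zero.1 ((smul_eq_zero.1 h3).resolve_right hv0)
  refine ⟨Polynomial.X ^ (N + 1) - Polynomial.X, ?_, ?_⟩
  · refine monic_X_pow_sub ?_
    rw [degree_X]
    exact_mod_cast Nat.succ_lt_succ hN
  · simp [h1]

/-- The inequality over an algebraically closed field. -/
theorem field_case {k X D : Type} [Field k] [IsAlgClosed k] [CharZero k] [Fintype X]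
    [DecidableEq X] [Group D] [Finite D] (P : D →* Matrix X X k) (J : Matrix X X k)
    (hJ : J * J = J) (hc : ∀ d, P d * J = J * P d) (n : ℕ) (hn : J.trace = (n : k))
    (h : ∀ u : D, u ≠ 1 → ∃ a b : ℕ, 1 ≤ b ∧ (a : k) * (P u * J).trace = -(b : k)) :
    Nat.card D ≤ n + 1 := by
  classical
  have := Fintype.ofFinite D
  -- the traces are negative integers
  have hneg : ∀ u : D, u ≠ 1 → ∃ m : ℤ, m ≤ -1 ∧ (P u * J).trace = (m : k) := by
    intro u hu
    obtain ⟨a, b, hb, hab⟩ := h u hu
    have hJp : ∀ i : ℕ, J ^ (i + 1) = J := by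
      intro i
      induction i with
      | zero => rw [zero_add, pow_one]
      | succ i ih => rw [pow_succ, ih, hJ]
    have hcom : Commute (P u) J := hc u
    have hX : (P u * J) ^ (orderOf u + 1) = P u * J := by
      rw [hcom.mul_pow, hJp, ← map_pow, pow_succ, pow_orderOf_eq_one, one_mul]
    have hint := trace_integral (P u * J) (orderOf_pos u) hX
    have ha : (a : k) ≠ 0 := by
      intro h0
      rw [h0, zero_mul] at hab
      have : (b : k) = 0 := by rw [← neg_eq_zero, ← hab]
      rw [Nat.cast_eq_zero] at this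
      omega
    -- the trace is rational
    have hq : (P u * J).trace = algebraMap ℚ k (-(b : ℚ) / a) := by
      rw [map_div₀, map_neg, map_natCast, map_natCast, eq_div_iff ha, mul_comm, hab]
    have hint2 : IsIntegral ℤ (-(b : ℚ) / a) := by
      rw [hq] at hint
      exact (isIntegral_algebraMap_iff (algebraMap ℚ k).injective).1 hint
    obtain ⟨m, hm⟩ := IsIntegrallyClosed.isIntegral_iff.1 hint2
    refine ⟨m, ?_, ?_⟩
    · have ha' : (0 : ℚ) < a := by
        have : a ≠ 0 := fun h0 => ha (by rw [h0, Nat.cast_zero])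
        exact_mod_cast Nat.pos_of_ne_zero this
      have hb' : (0 : ℚ) < b := by exact_mod_cast hb
      have h1 : (m : ℚ) < 0 := by
        have h2 : (m : ℚ) = -(b : ℚ) / a := hm
        rw [h2, neg_div, neg_lt_zero]
        exact div_pos hb' ha'
      have h3 : m < 0 := by exact_mod_cast h1
      omega
    · rw [hq, ← hm]
      simp
  choose! m hm1 hm2 using hneg
  -- the averaging idempotent
  have hc0 : (Fintype.card D : k) ≠ 0 := by exact_mod_cast Fintype.card_ne_zero
  set S : Matrix X X k := ∑ u : D, P u with hS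
  have hSP : ∀ d, P d * S = S := by
    intro d
    rw [hS, Finset.mul_sum]
    simp only [← map_mul]
    exact Fintype.sum_equiv (Equiv.mulLeft d) _ _ fun u => rfl
  have hSS : S * S = (Fintype.card D : k) • S := by
    conv_lhs => rw [hS, Finset.sum_mul]
    rw [Finset.sum_congr rfl fun d _ => hSP d, Finset.sum_const, Finset.card_univ]
    exact (Nat.cast_smul_eq_nsmul k _ _).symm
  have hSJ : S * J = J * S := by
    rw [hS, Finset.sum_mul, Finset.mul_sum]
    exact Finset.sum_congr rfl fun d _ => hc d
  set E : Matrix X X k := (Fintype.card D : k)⁻¹ • (S * J) with hE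
  have hEE : E * E = E := by
    have h1 : S * J * (S * J) = (Fintype.card D : k) • (S * J) := by
      rw [hSJ, mul_assoc, ← mul_assoc S J S, hSJ, mul_assoc J S S, hSS, ← mul_assoc, hJ,
        Matrix.mul_smul]
    rw [hE, Matrix.smul_mul, Matrix.mul_smul, h1, smul_smul, smul_smul, mul_assoc,
      inv_mul_cancel₀ hc0, mul_one]
  obtain ⟨r, hr⟩ : ∃ r : ℕ, E.trace = (r : k) := by
    have hid : IsIdempotentElem (Matrix.toLin' E) := by
      change Matrix.toLin' E * Matrix.toLin' E = Matrix.toLin' E
      rw [Module.End.mul_eq_comp, ← Matrix.toLin'_mul, hEE]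
    have h1 := (LinearMap.IsIdempotentElem.isProj_range _ hid).trace
    rw [Matrix.trace_toLin'_eq] at h1
    exact ⟨_, h1⟩
  have hsum : (Fintype.card D : k) * r = n + ∑ u ∈ Finset.univ.erase (1 : D), (m u : k) := by
    have h1 : (S * J).trace = (Fintype.card D : k) * r := by
      rw [← hr, hE, Matrix.trace_smul, smul_eq_mul, ← mul_assoc, mul_inv_cancel₀ hc0, one_mul]
    rw [← h1, hS, Finset.sum_mul, Matrix.trace_sum,
      ← Finset.add_sum_erase _ _ (Finset.mem_univ (1 : D)), map_one, one_mul, hn]
    congr 1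
    exact Finset.sum_congr rfl fun u hu => hm2 u (Finset.ne_of_mem_erase hu)
  have hsum' : (Fintype.card D : ℤ) * r = n + ∑ u ∈ Finset.univ.erase (1 : D), m u := by
    exact_mod_cast hsum
  have hle : ∑ u ∈ Finset.univ.erase (1 : D), m u ≤ ∑ _u ∈ Finset.univ.erase (1 : D), (-1 : ℤ) :=
    Finset.sum_le_sum fun u hu => hm1 u (Finset.ne_of_mem_erase hu)
  rw [Finset.sum_const, Finset.card_erase_of_mem (Finset.mem_univ _), Finset.card_univ] at hle
  have hpos : 0 < Fintype.card D := Fintype.card_pos
  have hnn : (0 : ℤ) ≤ (Fintype.card D : ℤ) * r := by positivity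
  rw [Nat.card_eq_fintype_card]
  have h4 : (((Fintype.card D - 1 : ℕ)) : ℤ) = (Fintype.card D : ℤ) - 1 := by
    push_cast [Nat.cast_sub hpos]
    ring
  rw [nsmul_eq_mul, h4] at hle
  have : (Fintype.card D : ℤ) ≤ n + 1 := by linarith
  exact_mod_cast this

theorem map_tr {R k X : Type} [CommRing R] [CommRing k] [Fintype X] [DecidableEq X] (f : R →+* k)
    (M : Matrix X X R) : (f.mapMatrix M).trace = f M.trace := by
  simp [Matrix.trace, map_sum]

theorem t : Pool.Agent.Helper98.EQ.S_FIN := by
  intro R X D _ _ _ _ _ _ _ P J hJ hc n hn h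
  set k := AlgebraicClosure (FractionRing R) with hk
  let f : R →+* k := (algebraMap (FractionRing R) k).comp (algebraMap R (FractionRing R))
  have hf : Function.Injective f :=
    (algebraMap (FractionRing R) k).injective.comp (IsFractionRing.injective R (FractionRing R))
  have hk0 : CharZero k := charZero_of_injective_ringHom hf
  refine field_case (k := k) ((f.mapMatrix : Matrix X X R →+* Matrix X X k).toMonoidHom.comp P)
    (f.mapMatrix J) ?_ ?_ n ?_ ?_
  · rw [← map_mul, hJ]
  · intro d
    change f.mapMatrix (P d) * f.mapMatrix J = f.mapMatrix J * f.mapMatrix (P d)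
    rw [← map_mul, ← map_mul, hc]
  · rw [map_tr, hn, map_natCast]
  · intro u hu
    obtain ⟨a, b, hb, hab⟩ := h u hu
    refine ⟨a, b, hb, ?_⟩
    change (a : k) * (f.mapMatrix (P u) * f.mapMatrix J).trace = -(b : k)
    rw [← map_mul, map_tr, ← map_natCast f a, ← map_mul, hab, map_neg, map_natCast]

end Pool.Agent.Helper23.EQ.FIN
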